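import Pool.Agent.V1165.Flat.Final

/-!
# MP_bb2d27_ag, Q1: a flat manifold with `b₁ = 0` all of whose complex structures have infinite
automorphism groups

The holonomy group is `G = ℤ/5 × ℤ/5` and the dimension is 24. For each of the six subgroups
`K_i` of order 5 of `G` let `χ_i : G → ⟨ζ⟩` be a character with kernel `K_i`, `ζ = exp (2πi/5)`. The
group `G` acts on the complex torus `E_i = ℂ²/ℤ[ζ]` through `χ_i` composed with translations by
multiples of the fixed point `1/(1-ζ)`, such that `K_i` acts freely by translations, and `M` is the
quotient of the product of the `E_i` by the (free) diagonal action of `G`. Since no character is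
trivial, `b₁ = 0`. The unit `ζ + ζ⁻¹ - 1 ≡ 1 mod (1 - ζ)` of `ℤ[ζ]`, acting on one of the `E_i`,
induces an automorphism of `M` of infinite order, and it lies in the group algebra of `G`, so that it
commutes with every complex structure `J`.
-/

set_option autoImplicit false

open Pool.Agent.V1165.Flat

/-- There is a flat manifold `M = ℝ^m / Γ` with `b₁(M) = 0` which admits a complex structure and
such that `Aut(M, J)` is infinite for every complex structure `J` on `M`. -/
theorem Pool.Agent.Results.MP_bb2d27_ag.AlwaysInfinite.result :
    ∃ (m : ℕ) (Γ : Subgroup (Isom m)), IsBieberbach Γ ∧ b1 Γ = 0 ∧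
      (∃ J : Lin m, IsComplexStructure Γ J) ∧
      ∀ J : Lin m, IsComplexStructure Γ J → (Aut Γ J).Infinite :=
  main
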